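import Pool.Agent.Helper90_MTF.Lag2

set_option autoImplicit false

namespace Pool.Agent.MTF.H90

open Matrix

theorem lag : LagStmt := by
  intro d _ _ w Ψ V g hL κ m hκ hD U U' hU hU' hne hc hi hi'
  by_contra hlt
  push Not at hlt
  have hs : Ψᵀ = -Ψ := hL.skew
  have h1 := finrank_le hL hU hU' hc hi
  have h2 := finrank_le hL hU' hU hc.symm hi'
  have h3 : Module.finrank ℂ U + Module.finrank ℂ U' = Fintype.card d := by
    rw [Submodule.finrank_add_eq_of_isCompl hc, Module.finrank_fintype_fun_eq_card]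
  have hpos : 0 < Module.finrank ℂ U := by
    rw [Module.finrank_pos_iff_exists_ne_zero]
    obtain ⟨x, hx, hx0⟩ := (Submodule.ne_bot_iff U).mp hne
    exact ⟨⟨x, hx⟩, fun h => hx0 (congrArg Subtype.val h)⟩
  obtain ⟨s, hsdef, e, p, he, heU, hep⟩ : ∃ s, Module.finrank ℂ U = s ∧
      ∃ (e : Fin s → (d → ℂ)) (p : Fin s → ℕ),
        LinearIndependent ℂ e ∧ (∀ j, e j ∈ U) ∧ ∀ j, e j ∈ V (p j) :=
    ⟨_, rfl, hom_basis hL hU⟩
  obtain ⟨e', he'U, he'p, he'⟩ := dual hL hU hU' hc hi e p he heU hep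
  rw [hsdef] at h1 h2 h3 hpos
  have hpw : ∀ j, p j ≤ w := fun j => le_w hL (hep j) (he.ne_zero j)
  have hsw : ∀ i j, psi Ψ (e' j) (e i) = if i = j then -1 else 0 := by
    intro i j
    rw [psi_swap hs, he' i j]
    split_ifs <;> simp
  have hee : ∀ i j, psi Ψ (e i) (e j) = 0 := fun i j => by
    rw [psi_apply]; exact hi _ (heU i) _ (heU j)
  have hee' : ∀ i j, psi Ψ (e' i) (e' j) = 0 := fun i j => by
    rw [psi_apply]; exact hi' _ (he'U i) _ (he'U j)
  let i0 : Fin s := ⟨0, hpos⟩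
  -- the number of basis vectors of a given weight
  have hcount : Fintype.card {j : Fin s // p i0 + p j = w} ≤ κ := by
    have h4 : ∀ j : {j : Fin s // p i0 + p j = w}, e j ∈ V (w - p i0) := by
      intro j
      have h5 : w - p i0 = p j := by have := j.2; omega
      rw [h5]
      exact hep j
    have h6 : LinearIndependent ℂ
        (fun j : {j : Fin s // p i0 + p j = w} => (⟨e j, h4 j⟩ : V (w - p i0))) := by
      have h7 : LinearIndependent ℂ (fun j : {j : Fin s // p i0 + p j = w} => e j) :=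
        he.comp _ Subtype.val_injective
      rw [Fintype.linearIndependent_iff] at h7 ⊢
      intro c hc0
      apply h7 c
      have := congrArg (fun z : V (w - p i0) => (z : d → ℂ)) hc0
      simpa using this
    exact h6.fintype_card_le_finrank.trans (hκ _)
  -- the index set
  let A : Type := Fin s ⊕ {j : Fin s // j ≠ i0 ∧ p i0 + p j ≠ w}
  have hA : m + 1 ≤ Fintype.card A := by
    have h4 : Fintype.card A = s + Fintype.card {j : Fin s // j ≠ i0 ∧ p i0 + p j ≠ w} := by
      change Fintype.card (Fin s ⊕ {j : Fin s // j ≠ i0 ∧ p i0 + p j ≠ w}) = _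
      rw [Fintype.card_sum, Fintype.card_fin]
    rw [Fintype.card_subtype] at h4 hcount
    have h5 : (Finset.univ : Finset (Fin s)) ⊆
        (Finset.univ.filter fun j => j ≠ i0 ∧ p i0 + p j ≠ w) ∪
          ({i0} ∪ Finset.univ.filter fun j => p i0 + p j = w) := by
      intro j _
      rw [Finset.mem_union, Finset.mem_union, Finset.mem_filter, Finset.mem_filter,
        Finset.mem_singleton]
      by_cases hj : j = i0
      · exact Or.inr (Or.inl hj)
      · by_cases hj' : p i0 + p j = w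
        · exact Or.inr (Or.inr ⟨Finset.mem_univ _, hj'⟩)
        · exact Or.inl ⟨Finset.mem_univ _, hj, hj'⟩
    have h6 := Finset.card_le_card h5
    have h7 := Finset.card_union_le
      (Finset.univ.filter fun j => j ≠ i0 ∧ p i0 + p j ≠ w)
      ({i0} ∪ Finset.univ.filter fun j => p i0 + p j = w)
    have h8 := Finset.card_union_le {i0} (Finset.univ.filter fun j => p i0 + p j = w)
    rw [Finset.card_univ, Fintype.card_fin] at h6
    rw [Finset.card_singleton] at h8
    omega
  obtain ⟨σ⟩ : Nonempty (Fin (m + 1) ↪ A) :=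
    Function.Embedding.nonempty_of_card_le (by rw [Fintype.card_fin]; exact hA)
  let π : A → Fin s × Fin s := Sum.elim (fun j => (j, j)) (fun j => (i0, j))
  have hπ : ∀ a b : A, ((π a).1 = (π b).1 ∧ (π a).2 = (π b).2) ∨
      ((π a).1 = (π b).2 ∧ (π a).2 = (π b).1) → a = b := by
    rintro (a | ⟨a, ha, ha'⟩) (b | ⟨b, hb, hb'⟩) h
    · have : a = b := by
        rcases h with h | h
        · exact h.1
        · exact h.1
      rw [this]
    · exfalso
      rcases h with h | h
      · exact hb (h.2.symm.trans h.1)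
      · exact hb (h.1.symm.trans h.2)
    · exfalso
      rcases h with h | h
      · exact ha (h.2.trans h.1.symm)
      · exact ha (h.2.trans h.1.symm)
    · have : a = b := by
        rcases h with h | h
        · exact h.2
        · exact absurd h.2 ha
      subst this
      rfl
  have hπw : ∀ a : A, p (π a).1 + p (π a).2 ≠ w := by
    rintro (a | ⟨a, ha, ha'⟩)
    · change p a + p a ≠ w
      obtain ⟨t, ht⟩ := hL.odd
      omega
    · exact ha'
  let X : Fin s × Fin s → Matrix d d ℂ := fun q =>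
    if w < p q.1 + p q.2 then E2 Ψ (e' q.1) (e' q.2) else E2 Ψ (e q.1) (e q.2)
  let Φ : Fin s × Fin s → (Matrix d d ℂ →ₗ[ℂ] ℂ) := fun q =>
    if w < p q.1 + p q.2 then phi Ψ (e q.1) (e q.2) else phi Ψ (e' q.1) (e' q.2)
  have hXsk : ∀ q, X q ∈ sk Ψ := by
    intro q
    change (if w < p q.1 + p q.2 then E2 Ψ (e' q.1) (e' q.2) else E2 Ψ (e q.1) (e q.2)) ∈ sk Ψ
    split_ifs
    · exact E2_mem hs _ _
    · exact E2_mem hs _ _
  have hΦv : ∀ a : A, g ⊔ F0 V ≤ LinearMap.ker (Φ (π a)) := by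
    intro a
    have hw := hπw a
    have hp1 := hpw (π a).1
    have hp2 := hpw (π a).2
    change g ⊔ F0 V ≤ LinearMap.ker (if w < p (π a).1 + p (π a).2 then
      phi Ψ (e (π a).1) (e (π a).2) else phi Ψ (e' (π a).1) (e' (π a).2))
    split_ifs with hlt'
    · exact phi_vanish hL hU hi hlt' (heU _) (hep _) (heU _) (hep _)
    · exact phi_vanish hL hU' hi' (p := w - p (π a).1) (q := w - p (π a).2) (by omega)
        (he'U _) (he'p _) (he'U _) (he'p _)
  have hne0 : ∀ q, Φ q (X q) ≠ 0 := by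
    intro q
    change (if w < p q.1 + p q.2 then phi Ψ (e q.1) (e q.2) else phi Ψ (e' q.1) (e' q.2))
      (if w < p q.1 + p q.2 then E2 Ψ (e' q.1) (e' q.2) else E2 Ψ (e q.1) (e q.2)) ≠ 0
    split_ifs with hlt'
    · rw [phi_E2, hsw, hsw, he', he']
      by_cases h : q.1 = q.2
      · rw [h]; norm_num
      · rw [if_neg h, if_pos rfl, if_pos rfl]; norm_num
    · rw [phi_E2, hsw, hsw, he', he']
      by_cases h : q.1 = q.2
      · rw [h]; norm_num
      · rw [if_neg h, if_pos rfl, if_pos rfl]; norm_num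
  have hz : ∀ q r : Fin s × Fin s, ¬ (q.1 = r.1 ∧ q.2 = r.2) → ¬ (q.1 = r.2 ∧ q.2 = r.1) →
      Φ q (X r) = 0 := by
    intro q r h4 h5
    have hd1 : ∀ (P Q : Prop) [Decidable P] [Decidable Q] (x y : ℂ), ¬ (P ∧ Q) →
        (if P then x else 0) * (if Q then y else 0) = (0 : ℂ) := by
      intro P Q _ _ x y h
      by_cases hP : P
      · rw [if_neg (fun hQ => h ⟨hP, hQ⟩), mul_zero]
      · rw [if_neg hP, zero_mul]
    change (if w < p q.1 + p q.2 then phi Ψ (e q.1) (e q.2) else phi Ψ (e' q.1) (e' q.2))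
      (if w < p r.1 + p r.2 then E2 Ψ (e' r.1) (e' r.2) else E2 Ψ (e r.1) (e r.2)) = 0
    by_cases h6 : w < p q.1 + p q.2 <;> by_cases h7 : w < p r.1 + p r.2
    · rw [if_pos h6, if_pos h7, phi_E2, hsw, hsw, he', he',
        hd1 _ _ _ _ (fun h => h5 ⟨h.1, h.2⟩), hd1 _ _ _ _ (fun h => h4 ⟨h.1, h.2⟩), add_zero]
    · rw [if_pos h6, if_neg h7, phi_E2, hee r.2 q.1, hee r.1 q.1, zero_mul, zero_mul, add_zero]
    · rw [if_neg h6, if_pos h7, phi_E2, hee' r.2 q.1, hee' r.1 q.1, zero_mul, zero_mul, add_zero]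
    · rw [if_neg h6, if_neg h7, phi_E2, hsw, hsw, he', he',
        hd1 _ _ _ _ (fun h => h5 ⟨h.1.symm, h.2.symm⟩), hd1 _ _ _ _ (fun h => h4 ⟨h.1.symm, h.2.symm⟩), add_zero]
  obtain ⟨l, hl0, hl⟩ := hD (fun k => X (π (σ k))) (fun k => hXsk _)
  apply hl0
  funext k
  have h4 := hΦv (σ k) hl
  rw [LinearMap.mem_ker, map_sum, Finset.sum_eq_single k] at h4
  · rw [map_smul, smul_eq_mul] at h4
    exact (mul_eq_zero.mp h4).resolve_right (hne0 _)
  · intro j _ hjk
    have h5 : σ k ≠ σ j := fun h => hjk (σ.injective h).symm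
    rw [map_smul, hz _ _ (fun h => h5 (hπ _ _ (Or.inl h))) (fun h => h5 (hπ _ _ (Or.inr h))),
      smul_zero]
  · intro h; exact absurd (Finset.mem_univ k) h

end Pool.Agent.MTF.H90
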