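import Pool.Agent.MTF.StmtsA

set_option autoImplicit false

namespace Pool.Agent.MTF.H90

open Finset

theorem num : NumStmt := by
  intro P _ x y κ hκ hx hy
  classical
  set s1 := ∑ p, x p with hs1
  set s2 := ∑ p, y p with hs2
  by_cases hT : ∃ p, 0 < x p * y p
  · obtain ⟨p0, hp0⟩ := hT
    have hx0 : 1 ≤ x p0 := by
      rcases Nat.eq_zero_or_pos (x p0) with h | h
      · rw [h, zero_mul] at hp0; omega
      · exact h
    have hy0 : 1 ≤ y p0 := by
      rcases Nat.eq_zero_or_pos (y p0) with h | h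
      · rw [h, mul_zero] at hp0; omega
      · exact h
    obtain ⟨a, ha⟩ : ∃ a, s1 = x p0 + a := ⟨∑ p ∈ univ.erase p0, x p, by
      rw [hs1, ← Finset.add_sum_erase _ _ (mem_univ p0)]⟩
    obtain ⟨b, hb⟩ : ∃ b, s2 = y p0 + b := ⟨∑ p ∈ univ.erase p0, y p, by
      rw [hs2, ← Finset.add_sum_erase _ _ (mem_univ p0)]⟩
    have ha' : a = ∑ p ∈ univ.erase p0, x p := by
      have : s1 = x p0 + ∑ p ∈ univ.erase p0, x p := by
        rw [hs1, ← Finset.add_sum_erase _ _ (mem_univ p0)]
      omega
    have hb' : b = ∑ p ∈ univ.erase p0, y p := by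
      have : s2 = y p0 + ∑ p ∈ univ.erase p0, y p := by
        rw [hs2, ← Finset.add_sum_erase _ _ (mem_univ p0)]
      omega
    have hsum : ∑ p, x p * y p ≤ x p0 * y p0 + a * b := by
      rw [← Finset.add_sum_erase _ _ (mem_univ p0)]
      apply Nat.add_le_add_left
      rw [ha', hb', Finset.sum_mul_sum]
      apply Finset.sum_le_sum
      intro i hi
      exact Finset.single_le_sum (f := fun j => x i * y j) (fun _ _ => Nat.zero_le _) hi
    have hk := hκ p0
    obtain ⟨u, hu⟩ := Nat.exists_eq_add_of_le hx0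
    obtain ⟨v, hv⟩ := Nat.exists_eq_add_of_le hy0
    rw [ha, hb]
    rw [hu, hv] at hsum hk ⊢
    nlinarith [Nat.zero_le (u * b), Nat.zero_le (a * v), Nat.zero_le (u * v), Nat.zero_le (a * b)]
  · push Not at hT
    have h0 : ∑ p, x p * y p = 0 := Finset.sum_eq_zero fun p _ => by
      have := hT p; omega
    rw [h0]
    have hk : 1 ≤ κ := by
      by_contra hk
      have hz : s1 = 0 := by
        rw [hs1]
        exact Finset.sum_eq_zero fun p _ => by have := hκ p; omega
      omega
    obtain ⟨u, hu⟩ := Nat.exists_eq_add_of_le hx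
    obtain ⟨v, hv⟩ := Nat.exists_eq_add_of_le hy
    rw [hu, hv]
    nlinarith [Nat.zero_le (u * v)]

end Pool.Agent.MTF.H90
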