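import Pool.Agent.MTF.StmtsA

set_option autoImplicit false

namespace Pool.Agent.MTF.H90

open Matrix

section lin

variable {V : Type} [AddCommGroup V] [Module ℂ V] [FiniteDimensional ℂ V]

/-- If any `m + 1` elements of `S` are dependent modulo `W`, the same holds for the span of `S`. -/
theorem dep_span (S : Set V) (W : Submodule ℂ V) (m : ℕ)
    (h : ∀ X : Fin (m + 1) → V, (∀ j, X j ∈ S) → ∃ l : Fin (m + 1) → ℂ, l ≠ 0 ∧
      ∑ j, l j • X j ∈ W) (X : Fin (m + 1) → V) (hX : ∀ j, X j ∈ Submodule.span ℂ S) :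
    ∃ l : Fin (m + 1) → ℂ, l ≠ 0 ∧ ∑ j, l j • X j ∈ W := by
  by_contra hcon
  push Not at hcon
  have hli : LinearIndependent ℂ (fun j => W.mkQ (X j)) := by
    rw [Fintype.linearIndependent_iff]
    intro g hg
    by_contra hne
    have hg0 : g ≠ 0 := by
      intro h0
      apply hne
      intro i
      rw [h0]; rfl
    apply hcon g hg0
    rw [← Submodule.ker_mkQ W, LinearMap.mem_ker, map_sum]
    simpa [map_smul] using hg
  obtain ⟨b, hb, hspan, hbi⟩ := exists_linearIndependent ℂ (W.mkQ '' S)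
  have hfin : Finite b := hbi.finite
  haveI : Fintype b := Fintype.ofFinite b
  have hcard : m + 1 ≤ Fintype.card b := by
    have h1 : Submodule.span ℂ (Set.range fun j => W.mkQ (X j)) ≤ Submodule.span ℂ b := by
      rw [hspan, ← Submodule.map_span, Submodule.span_le]
      rintro _ ⟨j, rfl⟩
      exact Submodule.mem_map_of_mem (hX j)
    have h2 := Submodule.finrank_mono h1
    rw [finrank_span_eq_card hli, Fintype.card_fin] at h2
    have h3 : Module.finrank ℂ (Submodule.span ℂ b) = Fintype.card b := by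
      have := finrank_span_eq_card hbi
      rwa [Subtype.range_coe] at this
    omega
  obtain ⟨f⟩ : Nonempty (Fin (m + 1) ↪ b) :=
    Function.Embedding.nonempty_of_card_le (by rw [Fintype.card_fin]; exact hcard)
  have hli2 : LinearIndependent ℂ (fun j => ((f j : b) : V ⧸ W)) := hbi.comp f f.injective
  choose Y hYS hY using fun j => hb (f j).2
  obtain ⟨l, hl0, hl⟩ := h Y hYS
  apply hl0
  rw [Fintype.linearIndependent_iff] at hli2
  funext i
  refine hli2 l ?_ i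
  have : W.mkQ (∑ j, l j • Y j) = 0 := by
    rw [← LinearMap.mem_ker, Submodule.ker_mkQ]; exact hl
  rw [map_sum] at this
  rw [← this]
  refine Finset.sum_congr rfl fun j _ => ?_
  rw [map_smul, hY]

end lin

section rk1

variable {d : Type} [Fintype d] [DecidableEq d] {Ψ : Matrix d d ℂ}

/-- `x ↦ ψ(v, x) v` -/
def T (Ψ : Matrix d d ℂ) (v : d → ℂ) : Matrix d d ℂ := vecMulVec v (v ᵥ* Ψ)

theorem dot_self (hs : Ψᵀ = -Ψ) (v : d → ℂ) : v ᵥ* Ψ ⬝ᵥ v = 0 := by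
  have h1 : v ᵥ* Ψ ⬝ᵥ v = v ⬝ᵥ Ψ *ᵥ v := (dotProduct_mulVec v Ψ v).symm
  have h2 : v ᵥ* Ψ ⬝ᵥ v = -(v ⬝ᵥ Ψ *ᵥ v) := by
    rw [dotProduct_comm, ← mulVec_transpose, hs, neg_mulVec, dotProduct_neg]
  rw [← h1] at h2
  have h3 : (2 : ℂ) * (v ᵥ* Ψ ⬝ᵥ v) = 0 := by linear_combination h2
  rcases mul_eq_zero.mp h3 with h | h
  · norm_num at h
  · exact h

theorem T_mem (hs : Ψᵀ = -Ψ) (v : d → ℂ) : T Ψ v ∈ sk Ψ := by
  change (vecMulVec v (v ᵥ* Ψ))ᵀ * Ψ + Ψ * vecMulVec v (v ᵥ* Ψ) = 0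
  rw [transpose_vecMulVec, vecMulVec_mul, mul_vecMulVec]
  have h : v ᵥ* Ψ = -(Ψ *ᵥ v) := by
    rw [← mulVec_transpose, hs, neg_mulVec]
  rw [h]
  ext i j
  simp [vecMulVec_apply]

theorem T_sq (hs : Ψᵀ = -Ψ) (v : d → ℂ) : T Ψ v * T Ψ v = 0 := by
  unfold T
  rw [vecMulVec_mul_vecMulVec, dot_self hs]
  ext i j
  simp [vecMulVec_apply]

theorem single_aux (c : ℂ) (i j : d) :
    c • (vecMulVec (Pi.single i (1 : ℂ)) (Pi.single j (1 : ℂ)) +
      vecMulVec (Pi.single j (1 : ℂ)) (Pi.single i (1 : ℂ))) =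
      (single i j c + single j i c : Matrix d d ℂ) := by
  have h : ∀ i j : d, c • vecMulVec (Pi.single i (1 : ℂ)) (Pi.single j (1 : ℂ)) =
      (single i j c : Matrix d d ℂ) := by
    intro i j
    ext a b
    rw [Matrix.smul_apply, vecMulVec_apply, single_apply, Pi.single_apply, Pi.single_apply]
    by_cases h1 : a = i <;> by_cases h2 : b = j
    · subst h1; subst h2; simp
    · subst h1; simp [h2, Ne.symm h2]
    · subst h2; simp [h1, Ne.symm h1]
    · simp [h1, Ne.symm h1]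
  rw [smul_add, h, h]

theorem span_nil (hs : Ψᵀ = -Ψ) (hu : IsUnit Ψ.det) (X : Matrix d d ℂ) (hX : X ∈ sk Ψ) :
    X ∈ Submodule.span ℂ {Y : Matrix d d ℂ | Y ∈ sk Ψ ∧ IsNilpotent Y} := by
  set S := {Y : Matrix d d ℂ | Y ∈ sk Ψ ∧ IsNilpotent Y}
  have hT : ∀ v, T Ψ v ∈ Submodule.span ℂ S := fun v =>
    Submodule.subset_span ⟨T_mem hs v, 2, by rw [pow_two]; exact T_sq hs v⟩
  set A := X * Ψ⁻¹ with hA
  have hXA : X = A * Ψ := by
    rw [hA, Matrix.mul_assoc, Matrix.nonsing_inv_mul _ hu, Matrix.mul_one]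
  have hAs : Aᵀ = A := by
    have h1 : Xᵀ * Ψ + Ψ * X = 0 := hX
    rw [hXA, transpose_mul, hs] at h1
    have h2 : Ψ * (A - Aᵀ) * Ψ = 0 := by
      rw [Matrix.mul_sub, Matrix.sub_mul]
      rw [← h1]
      simp only [Matrix.neg_mul, Matrix.mul_assoc]
      abel
    have h3 : A - Aᵀ = 0 := by
      have h4 : Ψ⁻¹ * (Ψ * (A - Aᵀ) * Ψ) * Ψ⁻¹ = A - Aᵀ := by
        rw [Matrix.mul_assoc Ψ, ← Matrix.mul_assoc Ψ⁻¹, Matrix.nonsing_inv_mul _ hu,
          Matrix.one_mul, Matrix.mul_assoc, Matrix.mul_nonsing_inv _ hu, Matrix.mul_one]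
      rw [← h4, h2, Matrix.mul_zero, Matrix.zero_mul]
    exact (sub_eq_zero.mp h3).symm
  have hpol : ∀ i j : d, vecMulVec (Pi.single i (1 : ℂ)) (Pi.single j (1 : ℂ) ᵥ* Ψ) +
      vecMulVec (Pi.single j (1 : ℂ)) (Pi.single i (1 : ℂ) ᵥ* Ψ) ∈ Submodule.span ℂ S := by
    intro i j
    have h1 := Submodule.sub_mem _ (Submodule.sub_mem _
      (hT (Pi.single i (1 : ℂ) + Pi.single j (1 : ℂ))) (hT (Pi.single i (1 : ℂ))))
      (hT (Pi.single j (1 : ℂ)))
    have h2 : T Ψ (Pi.single i (1 : ℂ) + Pi.single j (1 : ℂ)) - T Ψ (Pi.single i (1 : ℂ)) -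
        T Ψ (Pi.single j (1 : ℂ)) = vecMulVec (Pi.single i (1 : ℂ)) (Pi.single j (1 : ℂ) ᵥ* Ψ) +
      vecMulVec (Pi.single j (1 : ℂ)) (Pi.single i (1 : ℂ) ᵥ* Ψ) := by
      unfold T
      rw [add_vecMul, add_vecMulVec, vecMulVec_add, vecMulVec_add]
      abel
    rwa [h2] at h1
  have hsum : (2 : ℂ) • X = ∑ i, ∑ j, A i j •
      (vecMulVec (Pi.single i (1 : ℂ)) (Pi.single j (1 : ℂ) ᵥ* Ψ) +
      vecMulVec (Pi.single j (1 : ℂ)) (Pi.single i (1 : ℂ) ᵥ* Ψ)) := by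
    have h1 : ∀ i j : d, A i j • (vecMulVec (Pi.single i (1 : ℂ)) (Pi.single j (1 : ℂ) ᵥ* Ψ) +
        vecMulVec (Pi.single j (1 : ℂ)) (Pi.single i (1 : ℂ) ᵥ* Ψ)) =
        (single i j (A i j) + single j i (A i j)) * Ψ := by
      intro i j
      rw [← vecMulVec_mul, ← vecMulVec_mul, ← Matrix.add_mul, ← Matrix.smul_mul, single_aux]
    simp_rw [h1]
    rw [hXA]
    simp_rw [← Matrix.sum_mul]
    rw [← Matrix.smul_mul]
    congr 1
    simp_rw [Finset.sum_add_distrib]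
    have h2 : ∑ i, ∑ j, single i j (A i j) = A := (matrix_eq_sum_single A).symm
    have h3 : ∑ i, ∑ j, single j i (A i j) = A := by
      rw [Finset.sum_comm]
      conv_rhs => rw [matrix_eq_sum_single A]
      refine Finset.sum_congr rfl fun i _ => Finset.sum_congr rfl fun j _ => ?_
      rw [← hAs, transpose_apply, hAs]
    rw [h2, h3, two_smul]
  have h2X : (2 : ℂ) • X ∈ Submodule.span ℂ S := by
    rw [hsum]
    exact Submodule.sum_mem _ fun i _ => Submodule.sum_mem _ fun j _ =>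
      Submodule.smul_mem _ _ (hpol i j)
  have := Submodule.smul_mem _ ((2 : ℂ)⁻¹) h2X
  rwa [smul_smul, inv_mul_cancel₀ (by norm_num), one_smul] at this

end rk1

theorem spn : SpnStmt := by
  intro d _ _ Ψ hs hu W m h X hX
  exact dep_span {Y : Matrix d d ℂ | Y ∈ sk Ψ ∧ IsNilpotent Y} W m h X
    fun j => span_nil hs hu _ (hX j)

end Pool.Agent.MTF.H90
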