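import Pool.Agent.Helper90_MTF.Lag

set_option autoImplicit false

namespace Pool.Agent.MTF.H90

open Matrix

variable {d : Type} [Fintype d] [DecidableEq d] {Ψ : Matrix d d ℂ} {w : ℕ}
  {V : ℕ → Submodule ℂ (d → ℂ)} {g : Submodule ℂ (Matrix d d ℂ)}

theorem le_w (hL : HL w Ψ V g) {p : ℕ} {x : d → ℂ} (hx : x ∈ V p) (h0 : x ≠ 0) : p ≤ w := by
  by_contra h
  apply h0
  rw [hL.top p (by omega)] at hx
  exact (Submodule.mem_bot ℂ).mp hx

theorem pair_comp (hL : HL w Ψ V g) {p : ℕ} (hp : p ≤ w) {x : d → ℂ} (hx : x ∈ V p)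
    (f : ℕ →₀ (d → ℂ)) (hf : ∀ q, f q ∈ V q) :
    psi Ψ x (f.sum fun _ z => z) = psi Ψ x (f (w - p)) := by
  rw [Finsupp.sum, map_sum]
  by_cases h : w - p ∈ f.support
  · rw [Finset.sum_eq_single (w - p)]
    · intro q _ hq
      rw [psi_apply]
      exact hL.orth p q (by omega) x hx _ (hf q)
    · intro h'; exact absurd h h'
  · rw [Finsupp.notMem_support_iff.mp h, map_zero]
    refine Finset.sum_eq_zero fun q hq => ?_
    rw [psi_apply]
    refine hL.orth p q ?_ x hx _ (hf q)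
    intro hpq
    apply h
    have : w - p = q := by omega
    rw [this]; exact hq

theorem pos_ne (hL : HL w Ψ V g) {p : ℕ} {x : d → ℂ} (hx : x ∈ V p) (h0 : x ≠ 0) :
    psi Ψ x (star x) ≠ 0 := by
  intro h
  obtain ⟨t, ht, h1⟩ := hL.pos p (le_w hL hx h0) x hx h0
  rw [← psi_apply, h, mul_zero] at h1
  have : (t : ℂ) ≠ 0 := by exact_mod_cast ht.ne'
  exact this h1.symm

theorem nondeg (hL : HL w Ψ V g) {U U' : Submodule ℂ (d → ℂ)} (hU : Stab g U) (hU' : Stab g U')
    (hc : IsCompl U U') (hi : ∀ x ∈ U, ∀ y ∈ U, x ⬝ᵥ (Ψ *ᵥ y) = 0) (x : d → ℂ) (hx : x ∈ U)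
    (h : ∀ b ∈ U', psi Ψ x b = 0) : x = 0 := by
  obtain ⟨f, hf, hfx⟩ := graded hL hU x hx
  rw [← hfx, Finsupp.sum]
  refine Finset.sum_eq_zero fun p _ => ?_
  by_contra h0
  have hpw : p ≤ w := le_w hL (hf p).2 h0
  have h1 : star (f p) ∈ U ⊔ U' := by rw [hc.sup_eq_top]; trivial
  obtain ⟨a, ha, b, hb, hab⟩ := Submodule.mem_sup.mp h1
  obtain ⟨k, hk, hkb⟩ := graded hL hU' b hb
  have h2 : psi Ψ (f p) a = 0 := by rw [psi_apply]; exact hi _ (hf p).1 a ha
  have h3 : psi Ψ (f p) (k (w - p)) = psi Ψ (f p) (star (f p)) := by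
    rw [← pair_comp hL hpw (hf p).2 k (fun q => (hk q).2), hkb, ← hab, map_add, h2, zero_add]
  have h4 : psi Ψ x (k (w - p)) = psi Ψ (f p) (k (w - p)) := by
    rw [← hfx, Finsupp.sum, map_sum, LinearMap.sum_apply, Finset.sum_eq_single p]
    · intro q _ hq
      by_cases hz : f q = 0
      · rw [hz, map_zero, LinearMap.zero_apply]
      · have := le_w hL (hf q).2 hz
        rw [psi_apply]
        exact hL.orth q (w - p) (by omega) _ (hf q).2 _ (hk _).2
    · intro h'
      rw [Finsupp.notMem_support_iff.mp h', map_zero, LinearMap.zero_apply]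
  exact pos_ne hL (hf p).2 h0 (by rw [← h3, ← h4]; exact h _ (hk _).1)

theorem hom_basis (hL : HL w Ψ V g) {U : Submodule ℂ (d → ℂ)} (hU : Stab g U) :
    ∃ (e : Fin (Module.finrank ℂ U) → (d → ℂ)) (p : Fin (Module.finrank ℂ U) → ℕ),
      LinearIndependent ℂ e ∧ (∀ j, e j ∈ U) ∧ ∀ j, e j ∈ V (p j) := by
  obtain ⟨b, hb, hspan, hbi⟩ := exists_linearIndependent ℂ {x : d → ℂ | x ∈ U ∧ ∃ p, x ∈ V p}
  have hS : Submodule.span ℂ {x : d → ℂ | x ∈ U ∧ ∃ p, x ∈ V p} = U := by
    apply le_antisymm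
    · rw [Submodule.span_le]; rintro x ⟨hx, _⟩; exact hx
    · intro u hu
      obtain ⟨f, hf, hfu⟩ := graded hL hU u hu
      rw [← hfu, Finsupp.sum]
      exact Submodule.sum_mem _ fun p _ => Submodule.subset_span ⟨(hf p).1, p, (hf p).2⟩
  have hfin : Finite b := hbi.finite
  have : Fintype b := Fintype.ofFinite b
  have hcard : Fintype.card b = Module.finrank ℂ U := by
    have h1 := finrank_span_eq_card hbi
    rw [Subtype.range_coe, hspan, hS] at h1
    exact h1.symm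
  let σ : Fin (Module.finrank ℂ U) ≃ b := (finCongr hcard.symm).trans (Fintype.equivFin b).symm
  choose p hp using fun j => (hb (σ j).2).2
  exact ⟨fun j => (σ j : d → ℂ), p, hbi.comp σ σ.injective, fun j => (hb (σ j).2).1, hp⟩

theorem dual (hL : HL w Ψ V g) {U U' : Submodule ℂ (d → ℂ)} (hU : Stab g U) (hU' : Stab g U')
    (hc : IsCompl U U') (hi : ∀ x ∈ U, ∀ y ∈ U, x ⬝ᵥ (Ψ *ᵥ y) = 0) {s : ℕ}
    (e : Fin s → (d → ℂ)) (p : Fin s → ℕ) (he : LinearIndependent ℂ e) (heU : ∀ j, e j ∈ U)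
    (hep : ∀ j, e j ∈ V (p j)) :
    ∃ e' : Fin s → (d → ℂ), (∀ j, e' j ∈ U') ∧ (∀ j, e' j ∈ V (w - p j)) ∧
      ∀ i j, psi Ψ (e i) (e' j) = if i = j then 1 else 0 := by
  set L : U' →ₗ[ℂ] (Fin s → ℂ) := LinearMap.pi fun i => (psi Ψ (e i)).comp U'.subtype with hLdef
  have hsurj : LinearMap.range L = ⊤ := by
    by_contra hne
    obtain ⟨c, hc0, hcL⟩ := Submodule.exists_le_ker_of_lt_top _ (lt_top_iff_ne_top.mpr hne)
    have h1 : ∀ z : Fin s → ℂ, c z = ∑ i, z i * c (Pi.single i 1) := by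
      intro z
      conv_lhs => rw [pi_eq_sum_univ' z]
      rw [map_sum]
      refine Finset.sum_congr rfl fun i _ => ?_
      rw [map_smul, smul_eq_mul]
    have h2 : ∑ i, c (Pi.single i 1) • e i = 0 := by
      apply nondeg hL hU hU' hc hi
      · exact Submodule.sum_mem _ fun i _ => Submodule.smul_mem _ _ (heU i)
      · intro b hb
        have h3 := hcL (LinearMap.mem_range_self L ⟨b, hb⟩)
        rw [LinearMap.mem_ker, h1] at h3
        rw [map_sum, LinearMap.sum_apply, ← h3]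
        refine Finset.sum_congr rfl fun i _ => ?_
        rw [map_smul, LinearMap.smul_apply, smul_eq_mul, mul_comm]
        rfl
    rw [Fintype.linearIndependent_iff] at he
    have h4 := he _ h2
    apply hc0
    ext z
    rw [LinearMap.coe_comp, Function.comp_apply, h1]
    simp [h4]
  choose b hb using fun j : Fin s => LinearMap.range_eq_top.mp hsurj (Pi.single j 1)
  choose f hf hfb using fun j : Fin s => graded hL hU' (b j) (b j).2
  have hpw : ∀ j, p j ≤ w := fun j => le_w hL (hep j) (he.ne_zero j)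
  refine ⟨fun j => f j (w - p j), fun j => (hf j _).1, fun j => (hf j _).2, fun i j => ?_⟩
  change psi Ψ (e i) (f j (w - p j)) = _
  by_cases hij : p i = p j
  · rw [← hij, ← pair_comp hL (hpw i) (hep i) (f j) (fun q => (hf j q).2), hfb]
    have h1 := congrFun (hb j) i
    rw [Pi.single_apply] at h1
    exact h1
  · have hne : i ≠ j := fun h => hij (by rw [h])
    rw [if_neg hne, psi_apply]
    have := hpw i
    have := hpw j
    exact hL.orth _ _ (by omega) _ (hep i) _ (hf j _).2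

theorem finrank_le (hL : HL w Ψ V g) {U U' : Submodule ℂ (d → ℂ)} (hU : Stab g U)
    (hU' : Stab g U') (hc : IsCompl U U') (hi : ∀ x ∈ U, ∀ y ∈ U, x ⬝ᵥ (Ψ *ᵥ y) = 0) :
    Module.finrank ℂ U ≤ Module.finrank ℂ U' := by
  obtain ⟨e, p, he, heU, hep⟩ := hom_basis hL hU
  obtain ⟨e', he'U, _, he'⟩ := dual hL hU hU' hc hi e p he heU hep
  have h1 : LinearIndependent ℂ (fun j => (⟨e' j, he'U j⟩ : U')) := by
    rw [Fintype.linearIndependent_iff]
    intro c hc0 i
    have h2 : ∑ j, c j • e' j = 0 := by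
      have := congrArg (fun z : U' => (z : d → ℂ)) hc0
      simpa using this
    have h3 : psi Ψ (e i) (∑ j, c j • e' j) = 0 := by rw [h2, map_zero]
    rw [map_sum] at h3
    simp only [map_smul, he', smul_eq_mul] at h3
    simpa using h3
  have := h1.fintype_card_le_finrank
  rwa [Fintype.card_fin] at this

end Pool.Agent.MTF.H90
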