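import Pool.Agent.Helper90_MTF.Spn

set_option autoImplicit false

namespace Pool.Agent.MTF.H90

open Matrix

variable {d : Type} [Fintype d] [DecidableEq d] {Ψ : Matrix d d ℂ}

/-! ### polynomials of a matrix -/

theorem aeval_mulVec (H : Matrix d d ℂ) (μ : ℂ) (x : d → ℂ) (hx : H *ᵥ x = μ • x)
    (Q : Polynomial ℂ) : Polynomial.aeval H Q *ᵥ x = Q.eval μ • x := by
  induction Q using Polynomial.induction_on' with
  | add p q hp hq => rw [map_add, add_mulVec, hp, hq, Polynomial.eval_add, add_smul]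
  | monomial n a =>
    rw [Polynomial.aeval_monomial, Polynomial.eval_monomial, ← Matrix.mulVec_mulVec]
    have h : H ^ n *ᵥ x = μ ^ n • x := by
      induction n with
      | zero => simp
      | succ n ih => rw [pow_succ', ← Matrix.mulVec_mulVec, ih, mulVec_smul, hx, smul_smul,
          pow_succ]
    rw [h, Algebra.algebraMap_eq_smul_one, smul_mulVec, one_mulVec, smul_smul]

theorem aeval_mulVec_mem (H : Matrix d d ℂ) (U : Submodule ℂ (d → ℂ))
    (hH : ∀ x ∈ U, H *ᵥ x ∈ U) (Q : Polynomial ℂ) (x : d → ℂ) (hx : x ∈ U) :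
    Polynomial.aeval H Q *ᵥ x ∈ U := by
  induction Q using Polynomial.induction_on' with
  | add p q hp hq => rw [map_add, add_mulVec]; exact U.add_mem hp hq
  | monomial n a =>
    rw [Polynomial.aeval_monomial, ← Matrix.mulVec_mulVec, Algebra.algebraMap_eq_smul_one,
      smul_mulVec, one_mulVec]
    apply U.smul_mem
    induction n with
    | zero => simpa using hx
    | succ n ih => rw [pow_succ', ← Matrix.mulVec_mulVec]; exact hH _ ih

/-- stable subspaces are graded -/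
theorem graded {w : ℕ} {V : ℕ → Submodule ℂ (d → ℂ)} {g : Submodule ℂ (Matrix d d ℂ)}
    (hL : HL w Ψ V g) {U : Submodule ℂ (d → ℂ)} (hU : Stab g U) (u : d → ℂ) (hu : u ∈ U) :
    ∃ f : ℕ →₀ (d → ℂ), (∀ p, f p ∈ U ⊓ V p) ∧ f.sum (fun _ x => x) = u := by
  obtain ⟨H, hHg, hH⟩ := hL.hh
  have h1 : u ∈ ⨆ p, V p := by rw [hL.span]; trivial
  obtain ⟨f, hf, hfu⟩ := (Submodule.mem_iSup_iff_exists_finsupp _ _).mp h1
  refine ⟨f, fun q => ⟨?_, hf q⟩, hfu⟩
  by_cases hq : q ∈ f.support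
  · set v : ℕ → ℂ := fun p => (p : ℂ) - w / 2
    have hv : Set.InjOn v (f.support : Set ℕ) := by
      intro a _ b _ hab
      have : (a : ℂ) = b := by simpa [v] using hab
      exact_mod_cast this
    have h2 : Polynomial.aeval H (Lagrange.basis f.support v q) *ᵥ u = f q := by
      rw [← hfu, Finsupp.sum, mulVec_sum, Finset.sum_eq_single q]
      · rw [aeval_mulVec H (v q) _ (hH q _ (hf q)), Lagrange.eval_basis_self hv hq, one_smul]
      · intro p hp hpq
        rw [aeval_mulVec H (v p) _ (hH p _ (hf p)), Lagrange.eval_basis_of_ne (Ne.symm hpq) hp,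
          zero_smul]
      · intro h; exact absurd hq h
    rw [← h2]
    exact aeval_mulVec_mem H U (fun x hx => hU H hHg x hx) _ u hu
  · rw [Finsupp.notMem_support_iff.mp hq]; exact U.zero_mem

/-! ### the form and the elements of rank two -/

/-- the form as a bilinear map -/
noncomputable def psi (Ψ : Matrix d d ℂ) : (d → ℂ) →ₗ[ℂ] (d → ℂ) →ₗ[ℂ] ℂ :=
  Matrix.toLinearMap₂' ℂ Ψ

theorem psi_apply (x y : d → ℂ) : psi Ψ x y = x ⬝ᵥ (Ψ *ᵥ y) :=
  Matrix.toLinearMap₂'_apply' Ψ x y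

theorem psi_swap (hs : Ψᵀ = -Ψ) (x y : d → ℂ) : psi Ψ x y = -psi Ψ y x := by
  rw [psi_apply, psi_apply, dotProduct_mulVec, ← mulVec_transpose, hs, neg_mulVec,
    neg_dotProduct, dotProduct_comm]

/-- `x ↦ ψ(v, x) u + ψ(u, x) v` -/
def E2 (Ψ : Matrix d d ℂ) (u v : d → ℂ) : Matrix d d ℂ :=
  vecMulVec u (v ᵥ* Ψ) + vecMulVec v (u ᵥ* Ψ)

theorem E2_mem (hs : Ψᵀ = -Ψ) (u v : d → ℂ) : E2 Ψ u v ∈ sk Ψ := by
  have h : E2 Ψ u v = T Ψ (u + v) - T Ψ u - T Ψ v := by
    unfold E2 T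
    rw [add_vecMul, add_vecMulVec, vecMulVec_add, vecMulVec_add]
    abel
  rw [h]
  exact Submodule.sub_mem _ (Submodule.sub_mem _ (T_mem hs _) (T_mem hs _)) (T_mem hs _)

theorem E2_mulVec (u v x : d → ℂ) : E2 Ψ u v *ᵥ x = psi Ψ v x • u + psi Ψ u x • v := by
  unfold E2
  rw [add_mulVec, psi_apply, psi_apply, dotProduct_mulVec, dotProduct_mulVec]
  congr 1
  · ext i
    simp only [mulVec, dotProduct, vecMulVec_apply, Pi.smul_apply, smul_eq_mul]
    rw [Finset.sum_mul]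
    exact Finset.sum_congr rfl fun _ _ => by ring
  · ext i
    simp only [mulVec, dotProduct, vecMulVec_apply, Pi.smul_apply, smul_eq_mul]
    rw [Finset.sum_mul]
    exact Finset.sum_congr rfl fun _ _ => by ring

/-- the functional `X ↦ ψ(y, X x)` -/
noncomputable def phi (Ψ : Matrix d d ℂ) (x y : d → ℂ) : Matrix d d ℂ →ₗ[ℂ] ℂ where
  toFun X := psi Ψ y (X *ᵥ x)
  map_add' X Y := by rw [add_mulVec, map_add]
  map_smul' c X := by rw [smul_mulVec, map_smul]; rfl

theorem phi_apply (x y : d → ℂ) (X : Matrix d d ℂ) : phi Ψ x y X = psi Ψ y (X *ᵥ x) := rfl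

theorem phi_E2 (x y u v : d → ℂ) : phi Ψ x y (E2 Ψ u v) =
    psi Ψ v x * psi Ψ y u + psi Ψ u x * psi Ψ y v := by
  rw [phi_apply, E2_mulVec, map_add, map_smul, map_smul, smul_eq_mul, smul_eq_mul]

theorem phi_vanish {w : ℕ} {V : ℕ → Submodule ℂ (d → ℂ)} {g : Submodule ℂ (Matrix d d ℂ)}
    (hL : HL w Ψ V g) {U : Submodule ℂ (d → ℂ)} (hU : Stab g U)
    (hi : ∀ x ∈ U, ∀ y ∈ U, x ⬝ᵥ (Ψ *ᵥ y) = 0) {p q : ℕ} (hpq : w < p + q) {x y : d → ℂ}
    (hx : x ∈ U) (hxp : x ∈ V p) (hy : y ∈ U) (hyq : y ∈ V q) :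
    g ⊔ F0 V ≤ LinearMap.ker (phi Ψ x y) := by
  apply sup_le
  · intro X hX
    rw [LinearMap.mem_ker, phi_apply, psi_apply]
    exact hi y hy _ (hU X hX x hx)
  · intro X hX
    rw [LinearMap.mem_ker, phi_apply]
    have h1 : x ∈ Fil V p := by
      unfold Fil
      exact Submodule.mem_iSup_of_mem p (Submodule.mem_iSup_of_mem (Set.mem_Ici.mpr le_rfl) hxp)
    have h2 : X *ᵥ x ∈ Fil V p := hX p x h1
    have h3 : Fil V p ≤ LinearMap.ker (psi Ψ y) := by
      unfold Fil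
      refine iSup₂_le fun p' hp' z hz => ?_
      rw [LinearMap.mem_ker, psi_apply]
      rw [Set.mem_Ici] at hp'
      exact hL.orth q p' (by omega) y hyq z hz
    exact h3 h2

end Pool.Agent.MTF.H90
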